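import Pool.Agent.H.MP_9d6213_co.Main

namespace Pool.Agent.Results.MP_9d6213_co.NoHelly

/-- the subfamily indexed by `S` admits a continuous shrinking from `p` onto `q` -/
def Shrinks {n d : ℕ} (p q : Fin n → EuclideanSpace ℝ (Fin d)) (S : Finset (Fin n)) : Prop :=
  ∃ x : Fin n → unitInterval → EuclideanSpace ℝ (Fin d),
    (∀ i ∈ S, Continuous (x i) ∧ x i 0 = p i ∧ x i 1 = q i) ∧
    ∀ i ∈ S, ∀ j ∈ S, Antitone fun t => dist (x i t) (x j t)

theorem result (d : ℕ) (hd : 2 ≤ d) (m : ℕ) :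
    ∃ (n : ℕ) (p q : Fin n → EuclideanSpace ℝ (Fin d)),
      (∀ S : Finset (Fin n), S.card ≤ m → Shrinks p q S) ∧ ¬ Shrinks p q Finset.univ :=
  Pool.Agent.H.MP_9d6213_co.main d hd m

end Pool.Agent.Results.MP_9d6213_co.NoHelly
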